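import Mathlib

set_option autoImplicit false

open Module

namespace Pool.Agent.Results.MP_0d5a8e_co.SquareOfCycle

open Classical in
/-- The adjacency matrix of a finite simple graph, acting on `ℝⁿ`. -/
noncomputable def adjOp {n : ℕ} (G : SimpleGraph (Fin n)) : Module.End ℝ (Fin n → ℝ) :=
  Matrix.toLin' (G.adjMatrix ℝ)

/-- `θ` is the second-largest distinct eigenvalue of the adjacency matrix of `G`: it is an
eigenvalue, and exactly one eigenvalue is larger. -/
def IsSecondLargest {n : ℕ} (G : SimpleGraph (Fin n)) (θ : ℝ) : Prop :=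
  (adjOp G).HasEigenvalue θ ∧ ∃! μ : ℝ, (adjOp G).HasEigenvalue μ ∧ θ < μ

/-- Given a basis `b` of the `θ`-eigenspace of `G`, the point `v i ∈ ℝᵈ` of the vertex `i` of `G`:
the `i`-th row of the matrix whose columns are the basis vectors. -/
noncomputable def point {n : ℕ} {G : SimpleGraph (Fin n)} {θ : ℝ} {d : ℕ}
    (b : Basis (Fin d) ℝ ((adjOp G).eigenspace θ)) (i : Fin n) : Fin d → ℝ :=
  fun k => (b k : Fin n → ℝ) i

/-- The `θ`-eigenpolytope of `G`, computed in the basis `b`. -/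
noncomputable def eigenpolytope {n : ℕ} {G : SimpleGraph (Fin n)} {θ : ℝ} {d : ℕ}
    (b : Basis (Fin d) ℝ ((adjOp G).eigenspace θ)) : Set (Fin d → ℝ) :=
  convexHull ℝ (Set.range (point b))

/-- The square of the 8-cycle: `i` and `j` are adjacent when they differ by `±1` or `±2` modulo
`8`. -/
def C8sq : SimpleGraph (Fin 8) where
  Adj i j := i - j = 1 ∨ i - j = 2 ∨ i - j = 6 ∨ i - j = 7
  symm := ⟨by decide⟩
  loopless := ⟨by decide⟩

lemma adj_iff (i j : Fin 8) :
    C8sq.Adj i j ↔ (i - j = 1 ∨ i - j = 2 ∨ i - j = 6 ∨ i - j = 7) := Iff.rfl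

lemma connected : C8sq.Connected := by
  have h : ∀ i : Fin 8, C8sq.Reachable 0 i := by
    have step : ∀ i : Fin 8, C8sq.Reachable 0 i → C8sq.Reachable 0 (i + 1) := by
      intro i hi
      refine hi.trans (SimpleGraph.Adj.reachable ?_)
      rw [adj_iff]
      clear hi
      revert i
      decide
    have h0 : C8sq.Reachable 0 0 := SimpleGraph.Reachable.refl _
    have h1 := step 0 h0
    have h2 := step 1 h1
    have h3 := step 2 h2
    have h4 := step 3 h3
    have h5 := step 4 h4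
    have h6 := step 5 h5
    have h7 := step 6 h6
    intro i
    fin_cases i
    · exact h0
    · exact h1
    · exact h2
    · exact h3
    · exact h4
    · exact h5
    · exact h6
    · exact h7
  exact (SimpleGraph.connected_iff_exists_forall_reachable _).2 ⟨0, h⟩

lemma mem_eig (μ : ℝ) (x : Fin 8 → ℝ) :
    x ∈ (adjOp C8sq).eigenspace μ ↔
      x 6 + x 7 + x 1 + x 2 = μ * x 0 ∧ x 7 + x 0 + x 2 + x 3 = μ * x 1 ∧
      x 0 + x 1 + x 3 + x 4 = μ * x 2 ∧ x 1 + x 2 + x 4 + x 5 = μ * x 3 ∧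
      x 2 + x 3 + x 5 + x 6 = μ * x 4 ∧ x 3 + x 4 + x 6 + x 7 = μ * x 5 ∧
      x 4 + x 5 + x 7 + x 0 = μ * x 6 ∧ x 5 + x 6 + x 0 + x 1 = μ * x 7 := by
  classical
  rw [Module.End.mem_eigenspace_iff, funext_iff]
  have hA : ∀ i, adjOp C8sq x i = ∑ j, (if C8sq.Adj i j then 1 else 0) * x j := by
    intro i
    rw [adjOp, Matrix.toLin'_apply]
    simp only [Matrix.mulVec, dotProduct, SimpleGraph.adjMatrix_apply]
  simp only [hA, adj_iff, Fin.sum_univ_eight, Pi.smul_apply, smul_eq_mul]
  constructor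
  · intro h
    have h0 := h 0
    have h1 := h 1
    have h2 := h 2
    have h3 := h 3
    have h4 := h 4
    have h5 := h 5
    have h6 := h 6
    have h7 := h 7
    simp (decide := true) only [if_true, if_false] at h0 h1 h2 h3 h4 h5 h6 h7
    refine ⟨?_, ?_, ?_, ?_, ?_, ?_, ?_, ?_⟩ <;> linarith
  · rintro ⟨h0, h1, h2, h3, h4, h5, h6, h7⟩ i
    fin_cases i <;> simp (decide := true) only [if_true, if_false] <;>
      simp only [Fin.zero_eta, Fin.mk_one, Fin.reduceFinMk] <;> linarith

/-- antiperiodicity defect: `x i = x (i + 4)` unless `μ² = 2` -/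
lemma anti {μ : ℝ} {x : Fin 8 → ℝ} (hx : x ∈ (adjOp C8sq).eigenspace μ) (hμ : μ ^ 2 ≠ 2) :
    x 0 = x 4 ∧ x 1 = x 5 ∧ x 2 = x 6 ∧ x 3 = x 7 := by
  obtain ⟨h0, h1, h2, h3, h4, h5, h6, h7⟩ := (mem_eig μ x).1 hx
  have hne : μ ^ 2 - 2 ≠ 0 := sub_ne_zero.2 hμ
  refine ⟨?_, ?_, ?_, ?_⟩
  · have : (μ ^ 2 - 2) * (x 0 - x 4) = 0 := by
      linear_combination (-μ) * h0 + μ * h4 + (-1) * h7 + h3 + (-1) * h1 + h5
    exact sub_eq_zero.1 ((mul_eq_zero.1 this).resolve_left hne)
  · have : (μ ^ 2 - 2) * (x 1 - x 5) = 0 := by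
      linear_combination (-μ) * h1 + μ * h5 + (-1) * h0 + h4 + (-1) * h2 + h6
    exact sub_eq_zero.1 ((mul_eq_zero.1 this).resolve_left hne)
  · have : (μ ^ 2 - 2) * (x 2 - x 6) = 0 := by
      linear_combination (-μ) * h2 + μ * h6 + (-1) * h1 + h5 + (-1) * h3 + h7
    exact sub_eq_zero.1 ((mul_eq_zero.1 this).resolve_left hne)
  · have : (μ ^ 2 - 2) * (x 3 - x 7) = 0 := by
      linear_combination (-μ) * h3 + μ * h7 + (-1) * h2 + h6 + (-1) * h4 + h0
    exact sub_eq_zero.1 ((mul_eq_zero.1 this).resolve_left hne)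

/-- periodic part: unless `μ ∈ {4, 0, -2}`, the sums `x i + x (i + 4)` vanish -/
lemma per {μ : ℝ} {x : Fin 8 → ℝ} (hx : x ∈ (adjOp C8sq).eigenspace μ) (h4 : μ ≠ 4)
    (h0 : μ ≠ 0) (h2 : μ ≠ -2) :
    x 0 + x 4 = 0 ∧ x 1 + x 5 = 0 ∧ x 2 + x 6 = 0 ∧ x 3 + x 7 = 0 := by
  obtain ⟨e0, e1, e2, e3, e4, e5, e6, e7⟩ := (mem_eig μ x).1 hx
  have n4 : μ - 4 ≠ 0 := sub_ne_zero.2 h4
  have n2 : μ + 2 ≠ 0 := by
    intro h
    apply h2
    linarith
  have a : (μ + 2) * ((x 0 + x 4) - (x 2 + x 6)) = 0 := by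
    linear_combination (-1) * e0 - e4 + e2 + e6
  have b : (μ + 2) * ((x 1 + x 5) - (x 3 + x 7)) = 0 := by
    linear_combination (-1) * e1 - e5 + e3 + e7
  have a' := (mul_eq_zero.1 a).resolve_left n2
  have b' := (mul_eq_zero.1 b).resolve_left n2
  have c : (μ * (μ - 4)) * ((x 0 + x 4) + (x 2 + x 6)) = 0 := by
    linear_combination (-(μ - 2)) * (e0 + e4 + e2 + e6) - 2 * (e1 + e5 + e3 + e7)
  have d : (μ * (μ - 4)) * ((x 1 + x 5) + (x 3 + x 7)) = 0 := by
    linear_combination (-(μ - 2)) * (e1 + e5 + e3 + e7) - 2 * (e0 + e4 + e2 + e6)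
  have n : μ * (μ - 4) ≠ 0 := mul_ne_zero h0 n4
  have c' := (mul_eq_zero.1 c).resolve_left n
  have d' := (mul_eq_zero.1 d).resolve_left n
  refine ⟨?_, ?_, ?_, ?_⟩ <;> linarith

lemma sqrt_facts : 1 < Real.sqrt 2 ∧ Real.sqrt 2 < 2 ∧ Real.sqrt 2 * Real.sqrt 2 = 2 := by
  have h := Real.mul_self_sqrt (show (0 : ℝ) ≤ 2 by norm_num)
  have h0 := Real.sqrt_nonneg 2
  refine ⟨?_, ?_, h⟩
  · nlinarith
  · nlinarith

/-- the table of an eigenvector for `√2`, as a function of the difference to its peak -/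
noncomputable def wave : Fin 8 → ℝ := ![Real.sqrt 2, 1, 0, -1, -Real.sqrt 2, -1, 0, 1]

lemma wave_mem (i : Fin 8) : (fun j => wave (j - i)) ∈ (adjOp C8sq).eigenspace (Real.sqrt 2) := by
  obtain ⟨-, -, h⟩ := sqrt_facts
  rw [mem_eig]
  fin_cases i <;> refine ⟨?_, ?_, ?_, ?_, ?_, ?_, ?_, ?_⟩ <;> simp (decide := true) [wave] <;>
    linarith

lemma wave_le (k : Fin 8) (hk : k ≠ 0) : wave k ≤ 1 := by
  obtain ⟨h1, h2, h⟩ := sqrt_facts
  fin_cases k
  · exact absurd rfl hk
  all_goals simp [wave]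
  linarith

lemma wave_zero : wave 0 = Real.sqrt 2 := rfl

lemma second : IsSecondLargest C8sq (Real.sqrt 2) := by
  obtain ⟨h1, h2, h⟩ := sqrt_facts
  refine ⟨?_, 4, ⟨?_, by linarith⟩, ?_⟩
  · refine Module.End.hasEigenvalue_of_hasEigenvector (x := fun j => wave (j - 0))
      ⟨wave_mem 0, ?_⟩
    intro h0
    have := congrFun h0 0
    simp only [sub_zero, Pi.zero_apply] at this
    rw [wave_zero] at this
    linarith
  · refine Module.End.hasEigenvalue_of_hasEigenvector (x := fun _ => (1 : ℝ)) ⟨?_, ?_⟩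
    · rw [mem_eig]
      norm_num
    · intro h0
      have := congrFun h0 0
      simp at this
  · rintro μ ⟨hμ, hlt⟩
    by_contra hne
    obtain ⟨x, hx, hx0⟩ := hμ.exists_hasEigenvector
    have a := anti hx (by nlinarith)
    have b := per hx hne (by linarith) (by linarith)
    obtain ⟨a0, a1, a2, a3⟩ := a
    obtain ⟨b0, b1, b2, b3⟩ := b
    apply hx0
    funext i
    fin_cases i <;> simp only [Fin.zero_eta, Fin.mk_one, Fin.reduceFinMk, Pi.zero_apply] <;>
      linarith

/-- relations among the coordinates of an eigenvector for `√2` -/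
lemma rel {x : Fin 8 → ℝ} (hx : x ∈ (adjOp C8sq).eigenspace (Real.sqrt 2)) :
    x 0 + x 2 = Real.sqrt 2 * x 1 ∧ x 5 = - x 1 := by
  obtain ⟨h1, h2, h⟩ := sqrt_facts
  obtain ⟨b0, b1, b2, b3⟩ := per hx (by linarith) (by linarith) (by linarith)
  obtain ⟨e0, e1, e2, e3, e4, e5, e6, e7⟩ := (mem_eig _ x).1 hx
  constructor <;> linarith

variable {d : ℕ} (b : Basis (Fin d) ℝ ((adjOp C8sq).eigenspace (Real.sqrt 2)))

/-- the linear functional on `ℝᵈ` attached to an element of the eigenspace -/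
noncomputable def func (w : (adjOp C8sq).eigenspace (Real.sqrt 2)) : (Fin d → ℝ) →ₗ[ℝ] ℝ :=
  ∑ k, (b.repr w k) • LinearMap.proj k

lemma func_point (w : (adjOp C8sq).eigenspace (Real.sqrt 2)) (i : Fin 8) :
    func b w (point b i) = (w : Fin 8 → ℝ) i := by
  have h := b.sum_repr w
  have h' := congrArg (fun z : (adjOp C8sq).eigenspace (Real.sqrt 2) => (z : Fin 8 → ℝ) i) h
  simp only [func, point, LinearMap.sum_apply, LinearMap.smul_apply, LinearMap.proj_apply,
    smul_eq_mul]
  rw [← h']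
  simp only [Submodule.coe_sum, Submodule.coe_smul, Finset.sum_apply, Pi.smul_apply, smul_eq_mul]

/-- the functional peaking at the vertex `i` -/
noncomputable def peak (i : Fin 8) : (Fin d → ℝ) →ₗ[ℝ] ℝ := func b ⟨_, wave_mem i⟩

lemma peak_point (i j : Fin 8) : peak b i (point b j) = wave (j - i) := func_point b _ j

lemma peak_self (i : Fin 8) : peak b i (point b i) = Real.sqrt 2 := by
  rw [peak_point, sub_self, wave_zero]

lemma peak_ne {i j : Fin 8} (h : j ≠ i) : peak b i (point b j) ≤ 1 := by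
  rw [peak_point]
  exact wave_le _ (sub_ne_zero.2 h)

lemma injective : Function.Injective (point b) := by
  intro i j hij
  by_contra hne
  have h1 := peak_self b i
  have h2 := peak_ne b (i := i) (j := j) (fun h => hne h.symm)
  rw [hij] at h1
  have := sqrt_facts.1
  linarith

lemma extreme (i : Fin 8) : point b i ∈ (eigenpolytope b).extremePoints ℝ := by
  have hs := sqrt_facts.1
  -- the other points lie in a half-space
  set S : Set (Fin d → ℝ) := point b '' {j | j ≠ i} with hS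
  have hSle : convexHull ℝ S ⊆ {y | peak b i y ≤ 1} := by
    refine convexHull_min ?_ (convex_halfSpace_le (peak b i).isLinear 1)
    rintro _ ⟨j, hj, rfl⟩
    exact peak_ne b hj
  have hrange : Set.range (point b) = insert (point b i) S := by
    ext y
    simp only [Set.mem_range, Set.mem_insert_iff, hS, Set.mem_image, Set.mem_ofPred_eq]
    constructor
    · rintro ⟨j, rfl⟩
      by_cases h : j = i
      · left; rw [h]
      · right; exact ⟨j, h, rfl⟩
    · rintro (rfl | ⟨j, -, rfl⟩)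
      · exact ⟨i, rfl⟩
      · exact ⟨j, rfl⟩
  have hi1 : ∀ i : Fin 8, i + 1 ≠ i := by decide
  have hSne : S.Nonempty := ⟨point b (i + 1), i + 1, hi1 i, rfl⟩
  have hdesc : ∀ p ∈ eigenpolytope b, peak b i p ≤ Real.sqrt 2 ∧
      (peak b i p = Real.sqrt 2 → p = point b i) := by
    intro p hp
    rw [eigenpolytope, hrange, convexHull_insert hSne, mem_convexJoin] at hp
    obtain ⟨_, rfl, z, hz, hp⟩ := hp
    obtain ⟨s, t, hs0, ht0, hst, rfl⟩ := hp
    have hz' : peak b i z ≤ 1 := hSle hz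
    simp only [map_add, map_smul, smul_eq_mul, peak_self]
    have hse : s = 1 - t := by linarith
    subst hse
    constructor
    · nlinarith
    · intro h
      have ht : t * (Real.sqrt 2 - peak b i z) = 0 := by linarith
      have ht' : t = 0 := by
        rcases mul_eq_zero.1 ht with h | h
        · exact h
        · linarith
      subst ht'
      simp
  refine mem_extremePoints_iff_left.2 ⟨subset_convexHull ℝ _ ⟨i, rfl⟩, ?_⟩
  intro p hp q hq hpq
  obtain ⟨s, t, hs0, ht0, hst, he⟩ := hpq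
  obtain ⟨hp1, hp2⟩ := hdesc p hp
  obtain ⟨hq1, -⟩ := hdesc q hq
  have he' := congrArg (peak b i) he
  simp only [map_add, map_smul, smul_eq_mul, peak_self] at he'
  apply hp2
  have hse : t = 1 - s := by linarith
  subst hse
  nlinarith

lemma not_face : ¬ IsExtreme ℝ (eigenpolytope b) (segment ℝ (point b 2) (point b 0)) := by
  intro hE
  obtain ⟨h1, h2, h⟩ := sqrt_facts
  have hrel : point b 0 + point b 2 = Real.sqrt 2 • point b 1 ∧ point b 5 = - point b 1 := by
    constructor
    · funext k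
      exact (rel (b k).2).1
    · funext k
      exact (rel (b k).2).2
  have hmid : (1 / 2 : ℝ) • point b 2 + (1 / 2 : ℝ) • point b 0 ∈
      segment ℝ (point b 2) (point b 0) :=
    ⟨1 / 2, 1 / 2, by norm_num, by norm_num, by norm_num, rfl⟩
  have hopen : (1 / 2 : ℝ) • point b 2 + (1 / 2 : ℝ) • point b 0 ∈
      openSegment ℝ (point b 1) (point b 5) := by
    refine ⟨(2 + Real.sqrt 2) / 4, (2 - Real.sqrt 2) / 4, by linarith, by linarith, by ring, ?_⟩
    rw [hrel.2, ← smul_add, add_comm (point b 2), hrel.1]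
    module
  have hmem : point b 1 ∈ segment ℝ (point b 2) (point b 0) :=
    hE.left_mem_of_mem_openSegment (subset_convexHull ℝ _ ⟨1, rfl⟩)
      (subset_convexHull ℝ _ ⟨5, rfl⟩) hmid hopen
  obtain ⟨s, t, hs0, ht0, hst, he⟩ := hmem
  have he' := congrArg (peak b 1) he
  simp only [map_add, map_smul, smul_eq_mul, peak_self] at he'
  have g2 := peak_ne b (i := 1) (j := 2) (by decide)
  have g0 := peak_ne b (i := 1) (j := 0) (by decide)
  have hse : t = 1 - s := by linarith
  subst hse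
  nlinarith

/-- **Edges of a connected graph need not give edges of the `θ₂`-eigenpolytope.**  The square of the
8-cycle is connected; its second-largest eigenvalue is `√2`; in every basis of the eigenspace the
eight points are pairwise distinct vertices of the eigenpolytope; and for the adjacent vertices `2`
and `0` the segment between the two corresponding points is not an extreme subset (hence not a
face) of the eigenpolytope. -/
theorem result :
    C8sq.Connected ∧ IsSecondLargest C8sq (Real.sqrt 2) ∧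
    ∀ (d : ℕ) (b : Basis (Fin d) ℝ ((adjOp C8sq).eigenspace (Real.sqrt 2))),
      Function.Injective (point b) ∧
      (∀ i, point b i ∈ (eigenpolytope b).extremePoints ℝ) ∧
      C8sq.Adj 2 0 ∧
      ¬ IsExtreme ℝ (eigenpolytope b) (segment ℝ (point b 2) (point b 0)) :=
  ⟨connected, second, fun _ b => ⟨injective b, extreme b, by rw [adj_iff]; decide, not_face b⟩⟩

end Pool.Agent.Results.MP_0d5a8e_co.SquareOfCycle
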